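import Mathlib
import Pool.Agent.D0H57.LC.BoolCost

/-!
# Conversion of 1-limited automata into unambiguous ones, and Boolean combinations of them

The known lower bound `2 ^ (c n ^ 2)` for the cost `D(n)` of the conversion of 1-limited automata
(LAs) of size `n` into deterministic ones already holds for the conversion into unambiguous LAs, in
which every input has at most one accepting computation, more generally into LAs with at most
`k` accepting computations on every input, even if `k` is exponential in `n`, and even for the
conversion into arbitrary Boolean combinations of such LAs. For every `m` there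
is an LA of size `O(m)` over a fixed alphabet such that every Boolean combination of `k_i`-ambiguous
LAs with `q_i` states for its language satisfies `2 ^ (m ^ 2) ≤ ∑ k_i (q_i ^ 2 + q_i)`. So
`DA k n`, the cost of the conversion into `k`-ambiguous LAs, and `DBA k n`, the cost (total size) of
the conversion into Boolean combinations of them, satisfy
`2 ^ (n ^ 2 / 10 ^ 11) ≤ k * DBA k n ^ 2` and
`DBA k n ≤ DA k n ≤ DA 1 n ≤ D n ≤ 2 ^ ((n + 2) ^ 4)`. For `k = 2 ^ (c n)` the costs are not of the
form `2 ^ O(n)`. In contrast, Boolean combinations of LAs of unbounded ambiguity of course cost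
nothing, and the complement of an LA is such a combination.

Proof. A computation of an LA on `x y` has a label at the cut: the table of the trips through the
frozen content of the cells of `x` at the first arrival at the next cell, and the state. Every
label that is possible on the left side and on the right side comes from an accepting computation,
and computations with different labels are different. So the matrix of the numbers of the labels
has entries at most `k` and rank at most the number `2 ^ (q ^ 2) q` of labels. For the witness
language of the starting files (words `x_G`, `y_H` for the sets `G`, `H` of `m × m` matrices over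
the two-element field, with `x_G y_H` in the language iff `G` is not a subset of `H`) a polynomial
of degree `k_i` in the `i`-th matrix (interpolation on `{0, ..., k_1} × ... × {0, ..., k_t}`) gives
the inclusion matrix, which has full rank `2 ^ (2 ^ (m ^ 2))`.
-/

set_option autoImplicit false

namespace Pool.Agent.Results.MP_0036f5_lc.BoundedAmbiguity

open Filter
open Pool.Agent.H630R2.LA
open Pool.Agent.R620.KV (IsAcc)
open Pool.Agent.D0H57.LC (Ambiguity accComps boolComb costsA DA costsBA DBA)

theorem result (strict : Prop) :
    -- (1) hard 1-limited automata of linear size over a fixed finite alphabet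
    (∃ (A : Type) (_ : Finite A), ∀ m : ℕ, ∃ M : LimAut A, M.size ≤ 170000 * (m + 1) ∧
      (∀ (k : ℕ) (M' : LimAut A), Ambiguity strict M' k →
        M'.language strict = M.language strict →
        2 ^ (m ^ 2) ≤ k * (Nat.card M'.Q ^ 2 + Nat.card M'.Q)) ∧
      (∀ (t : ℕ) (k : Fin t → ℕ) (M' : Fin t → LimAut A) (F : (Fin t → Prop) → Prop),
        (∀ i, Ambiguity strict (M' i) (k i)) → boolComb strict M' F = M.language strict →
        2 ^ (m ^ 2) ≤ ∑ i, k i * (Nat.card (M' i).Q ^ 2 + Nat.card (M' i).Q))) ∧
    -- (2) deterministic machines are unambiguous, and the cost functions are maxima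
    (∀ (A : Type) (M : LimAut A), M.Deterministic → Ambiguity strict M 1) ∧
    (∀ k n : ℕ, 1 ≤ k → 4 ≤ n → IsGreatest (costsA k strict n) (DA k strict n) ∧
      IsGreatest (costsBA k strict n) (DBA k strict n)) ∧
    -- (3) their bounds
    (∀ k k' n : ℕ, 1 ≤ k → k ≤ k' → 4 ≤ n → DA k' strict n ≤ DA k strict n ∧
      DBA k strict n ≤ DA k strict n ∧ DA k strict n ≤ D strict n ∧
      D strict n ≤ 2 ^ ((n + 2) ^ 4)) ∧
    (∀ k n : ℕ, 1 ≤ k → 680000 ≤ n →
      2 ^ (n ^ 2 / 100000000000) ≤ k * DBA k strict n ^ 2) ∧
    (∀ c : ℕ, ∀ᶠ n in atTop, 2 ^ (c * n) < DBA (2 ^ (c * n)) strict n) :=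
  ⟨⟨N602.FT.BL TH705.LB.Ltr, inferInstance, fun m => ⟨N602.FT.bwit m, N602.FT.size_bwit m,
      fun k M' h1 h2 => D0H57.LC.ambiguous_lower strict m k M' h1 h2,
      fun t k M' F h1 h2 => D0H57.LC.bool_lower strict m t k M' F h1 h2⟩⟩,
    fun _ _ h => D0H57.LC.det_ambiguity h,
    fun _ n hk hn => ⟨D0H57.LC.A_greatest hk n hn, D0H57.LC.BA_greatest hk n hn⟩,
    fun _ _ n hk hkk hn => ⟨D0H57.LC.A_anti hk hkk n hn, D0H57.LC.BA_le_A hk n hn,
      D0H57.LC.A_le_D hk n hn, D0H57.LC.D_le_pow n⟩,
    fun _ n hk hn => D0H57.LC.BA_lower hk n hn,
    fun c => D0H57.LC.BA_superexp c⟩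

end Pool.Agent.Results.MP_0036f5_lc.BoundedAmbiguity
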