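import Mathlib
import Pool.Agent.D0H57.LC.ISE

/-!
# The cost of complementing 1-limited automata is `2 ^ (Theta(n ^ 2))`

Complementation of 1-limited automata (LAs) by 1-limited automata costs `2 ^ (Theta(n ^ 2))`: the
worst-case cost `CC(n)` satisfies `2 ^ (n ^ 2 / (2 * 10 ^ 11)) ≤ CC(n) ≤ 2 ^ (100 n ^ 2)`. For the
cost `D(n)` of determinization only `2 ^ (c n ^ 2) ≤ D(n) ≤ 2 ^ ((n + 2) ^ 4)` is known (starting
files), so the known lower bound for `D(n)` already holds for complementation by nondeterministic
machines, where it is optimal up to the constant in the exponent; a better lower bound for `D(n)`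
cannot come from the complement.

Lower bound. For every `m` there is an LA of size `O(m)` over a fixed alphabet such that every LA
for the complement of its language has `q` states with `2 ^ (m ^ 2) ≤ q ^ 2 + q`. The same holds
for all expressions over LAs with the operations union, intersection, concatenation, star,
reversal, shuffle and preimages under transductions, in place of an LA; and for all self-verifying
LAs for the language itself. The starting files construct an LA `M` of size `O(m)` and, for every
set `G` of `m × m` matrices over the two-element field, words `x_G`, `y_G` such that `x_G y_H` is in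
`L(M)` iff `G` is not a subset of `H`. So a one-way nondeterministic automaton for the complement
enters different states after the `2 ^ (2 ^ (m ^ 2))` different words `x_G`.

Upper bound. The language of an LA with `q` states, more generally of an expression of weight `W`,
has a one-way nondeterministic automaton with `N = 2 ^ W` states (`W = q ^ 2 + q`), and the
complement of the language of such an automaton has an LA with a number of states polynomial in `N`.
This LA writes, in a first sweep, a guessed bit in every cell; in the `k`-th cell of the `j`-th block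
of length `N` it should tell if the state `k` can be reached after `j N` letters. Then it verifies
the bits block by block, by inductive counting (Immerman, Szelepcsényi) from the bits of the block
before: it knows the number of the states which can be reached after `t` letters, and shows that
a state cannot be reached after `t + 1` letters by guessing paths, which start at the bits of the
block, to so many states without a transition to the given one.
-/

set_option autoImplicit false

namespace Pool.Agent.Results.MP_0036f5_lc.Complementation

open Filter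
open Pool.Agent.H630R2.LA
open Pool.Agent.R50.LX (Expr Acc)
open Pool.Agent.D0H57.LC (CX CC CL CY CN costsX costsC costsL costsY costsN)

/-- `M` with the set `R` of rejecting states is a self-verifying 1-limited automaton: the inputs
with a computation that moves past the right end-marker in a state of `R` are the inputs without a
computation that moves past it in a final state. -/
def SelfVerifying {A : Type} (strict : Prop) (M : LimAut A) (R : Set M.Q) : Prop :=
  ({ M with F := R } : LimAut A).language strict = (M.language strict)ᶜ

/-- The complement of `L` is hard for nondeterministic machines, with the parameter `N`. -/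
structure HardToComplement (strict : Prop) {A : Type} (L : Set (List A)) (N : ℕ) : Prop where
  /-- 1-limited automata -/
  limited : ∀ M : LimAut A, M.language strict = Lᶜ → N ≤ Nat.card M.Q ^ 2 + Nat.card M.Q
  /-- expressions over 1-limited automata -/
  expressions : ∀ e : Expr A, e.lang strict = Lᶜ → N ≤ e.weight ∧ N ≤ e.size ^ 2
  /-- self-verifying 1-limited automata for `L` -/
  selfVerifying : ∀ (M : LimAut A) (R : Set M.Q), M.language strict = L →
    SelfVerifying strict M R → N ≤ Nat.card M.Q ^ 2 + Nat.card M.Q
  /-- one-way nondeterministic automata -/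
  oneWay : ∀ r : ℕ, Acc Lᶜ r → 2 ^ N ≤ r

theorem hard (strict : Prop) (m : ℕ) :
    HardToComplement strict ((N602.FT.bwit m).language strict) (2 ^ (m ^ 2)) where
  limited M h := D0H57.LC.la_compl_lower strict m M h
  expressions e h := by
    have h1 := D0H57.LC.expr_compl_lower strict m e h
    exact ⟨h1, h1.trans e.weight_le.1⟩
  selfVerifying M R h h' := by
    have h1 : ({ M with F := R } : LimAut _).language strict =
        ((N602.FT.bwit m).language strict)ᶜ := by
      rw [← h]
      exact h'
    exact D0H57.LC.la_compl_lower strict m { M with F := R } h1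
  oneWay r h := D0H57.LC.acc_compl_lower strict m r h

theorem superexp (strict : Prop) (c : ℕ) : ∀ᶠ n in atTop, 2 ^ (c * n) < CX strict n := by
  filter_upwards [eventually_ge_atTop (680000 + 200000000000 * c)] with n hn
  have h1 := D0H57.LC.X_lower (strict := strict) n (by omega)
  by_contra hcon
  have h2 : CX strict n ≤ 2 ^ (c * n) := not_lt.1 hcon
  have h3 : 2 ^ (n ^ 2) ≤ 2 ^ (c * n * 200000000000) := by
    rw [pow_mul 2 (c * n)]
    exact h1.trans (Nat.pow_le_pow_left h2 _)
  have h4 : n ^ 2 ≤ c * n * 200000000000 := (Nat.pow_le_pow_iff_right (by norm_num)).1 h3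
  have h5 : n * n ≤ (200000000000 * c) * n := by nlinarith
  have h6 : n ≤ 200000000000 * c := Nat.le_of_mul_le_mul_right h5 (by omega)
  omega

theorem result (strict : Prop) :
    -- (1) hard 1-limited automata of linear size over a fixed finite alphabet
    (∃ (A : Type) (_ : Finite A), ∀ m : ℕ, ∃ M : LimAut A, M.size ≤ 170000 * (m + 1) ∧
      HardToComplement strict (M.language strict) (2 ^ (m ^ 2))) ∧
    -- (2) upper bounds
    (∀ (A : Type) [Finite A] (e : Expr A),
      (∃ M' : LimAut A, M'.language strict = (e.lang strict)ᶜ ∧
        Nat.card M'.Q ≤ 2 ^ (9 * e.weight + 33) ∧ M'.size ≤ 2 ^ (100 * e.size ^ 2)) ∧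
      (∃ M' : LimAut A, M'.Deterministic ∧ M'.language strict = (e.lang strict)ᶜ ∧
        M'.size ≤ 2 ^ ((e.size + 2) ^ 4)) ∧
      Acc (e.lang strict)ᶜ (2 ^ 2 ^ e.weight) ∧ e.weight ≤ e.size ^ 2) ∧
    -- (3) one-way nondeterministic automata are complemented at polynomial cost
    (∀ (A : Type) [Finite A] (L : Set (List A)) (r : ℕ), Acc L r →
      ∃ M' : LimAut A, (∀ strict' : Prop, M'.language strict' = Lᶜ) ∧
        Nat.card M'.Q ≤ 40 * (2 * r + 4) ^ 9 + 3 ∧
        M'.size ≤ 96 * (40 * (2 * r + 4) ^ 9 + 3) ^ 2 * (Nat.card A + 1) ^ 2) ∧
    -- (4) the cost functions are maxima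
    (∀ n : ℕ, 4 ≤ n → IsGreatest (costsX strict n) (CX strict n) ∧
      IsGreatest (costsC strict n) (CC strict n) ∧ IsGreatest (costsL strict n) (CL strict n) ∧
      IsGreatest (costsY strict n) (CY strict n) ∧ IsGreatest (costsN strict n) (CN strict n)) ∧
    -- (5) their bounds
    (∀ n : ℕ, 4 ≤ n → CX strict n ≤ CC strict n ∧ CC strict n ≤ CL strict n ∧
      CL strict n ≤ 2 ^ (100 * n ^ 2) ∧ CL strict n ≤ CY strict n ∧
      CY strict n ≤ 2 ^ ((n + 2) ^ 4) ∧ CN strict n ≤ 2 ^ 2 ^ (n ^ 2)) ∧
    (∀ n : ℕ, 680000 ≤ n → 2 ^ (n ^ 2) ≤ CX strict n ^ 200000000000 ∧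
      2 ^ 2 ^ (n ^ 2 / 100000000000) ≤ CN strict n) ∧
    (∀ c : ℕ, ∀ᶠ n in atTop, 2 ^ (c * n) < CX strict n) :=
  ⟨⟨N602.FT.BL TH705.LB.Ltr, inferInstance,
      fun m => ⟨N602.FT.bwit m, N602.FT.size_bwit m, hard strict m⟩⟩,
    fun A _ e => ⟨D0H57.LC.compl_expr strict e, D0H57.LC.exists_det_compl strict e e.size le_rfl,
      D0H57.LC.Acc_compl (e.acc strict), e.weight_le.1⟩,
    fun A _ L r h => D0H57.LC.compl_acc h,
    fun n hn => ⟨D0H57.LC.X_greatest n hn, D0H57.LC.C_greatest n hn, D0H57.LC.L_greatest n hn,
      D0H57.LC.Y_greatest n hn, D0H57.LC.N_greatest n hn⟩,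
    fun n hn => ⟨D0H57.LC.X_le_C n hn, D0H57.LC.C_le_L n hn, D0H57.LC.L_le n hn,
      D0H57.LC.L_le_Y n hn, D0H57.LC.Y_le n hn, D0H57.LC.N_le n hn⟩,
    fun n hn => ⟨D0H57.LC.X_lower n hn, D0H57.LC.N_lower n hn⟩,
    fun c => superexp strict c⟩

end Pool.Agent.Results.MP_0036f5_lc.Complementation
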