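import Mathlib
import Pool.Agent.D0H57.LC.ISVE

/-!
# Converting 1-limited automata into self-verifying ones costs `2 ^ (Theta(n ^ 2))`

A self-verifying 1-limited automaton (LA) for a language `L` is a nondeterministic one with final and
rejecting states: an input is in `L` iff some computation ends in a final state, and it is not in
`L` iff some computation ends in a rejecting state. These machines lie between the deterministic and
the nondeterministic ones. We show that the worst-case cost `SV(n)` of the conversion of LAs of
size `n` into self-verifying LAs is `2 ^ (Theta(n ^ 2))`, more precisely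
`2 ^ (n ^ 2 / (2 * 10 ^ 11)) ≤ SV(n) ≤ 2 ^ (100 n ^ 2)`, while for the conversion into deterministic
LAs the starting files prove `2 ^ (c n ^ 2) ≤ D(n) ≤ 2 ^ ((n + 2) ^ 4)`. The upper bound also holds for
expressions over LAs (union, intersection, concatenation, star, reversal, shuffle, preimages under
transductions), and a one-way nondeterministic automaton with `r` states has an equivalent
self-verifying LA with at most `40 (2 r + 4) ^ 9 + 4` states, for which nothing better than
`r ^ (O(log r))` is known in the deterministic case.

Lower bound. There are LAs of size `O(m)` over a fixed alphabet all of whose self-verifying LAs have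
`q` states with `2 ^ (m ^ 2) ≤ q ^ 2 + q`, because this holds for all LAs for the complement
(a fooling set of `2 ^ (2 ^ (m ^ 2))` words).

Upper bound. The LA has a one-way nondeterministic automaton with `N = 2 ^ (q ^ 2 + q)` states. The
self-verifying LA writes in a first sweep guessed bits, which should tell, for the `k`-th cell of the
`j`-th block of length `N`, if the state `k` can be reached after `j N` letters, and verifies
them block by block by inductive counting (Immerman, Szelepcsényi). At the right end-marker it knows
the number of the states which can be reached: it accepts if it finds a final one among them by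
guessing a path, and rejects if it finds so many states which are not final.
-/

set_option autoImplicit false

namespace Pool.Agent.Results.MP_0036f5_lc.SelfVerifyingMachines

open Filter
open Pool.Agent.H630R2.LA
open Pool.Agent.R50.LX (Expr Acc)
open Pool.Agent.D0H57.LC.SV (SelfVer costsS costsSE SV SVE)

theorem hard (strict : Prop) (m : ℕ) (M : LimAut (N602.FT.BL TH705.LB.Ltr)) (R : Set M.Q)
    (h : M.language strict = (N602.FT.bwit m).language strict) (h' : SelfVer strict M R) :
    2 ^ (m ^ 2) ≤ Nat.card M.Q ^ 2 + Nat.card M.Q := by
  have h1 : ({ M with F := R } : LimAut _).language strict =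
      ((N602.FT.bwit m).language strict)ᶜ := by
    rw [← h]
    exact h'
  exact D0H57.LC.la_compl_lower strict m { M with F := R } h1

theorem result (strict : Prop) :
    -- (1) hard 1-limited automata of linear size over a fixed finite alphabet
    (∃ (A : Type) (_ : Finite A), ∀ m : ℕ, ∃ M : LimAut A, M.size ≤ 170000 * (m + 1) ∧
      ∀ (M' : LimAut A) (R : Set M'.Q), M'.language strict = M.language strict →
        SelfVer strict M' R → 2 ^ (m ^ 2) ≤ Nat.card M'.Q ^ 2 + Nat.card M'.Q) ∧
    -- (2) one-way nondeterministic automata
    (∀ (A : Type) [Finite A] (L : Set (List A)) (r : ℕ), Acc L r →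
      ∃ (M' : LimAut A) (R : Set M'.Q), (∀ strict' : Prop, M'.language strict' = L) ∧
        (∀ strict' : Prop, SelfVer strict' M' R) ∧
        Nat.card M'.Q ≤ 40 * (2 * r + 4) ^ 9 + 4 ∧
        M'.size + R.ncard ≤ 97 * (40 * (2 * r + 4) ^ 9 + 4) ^ 2 * (Nat.card A + 1) ^ 2) ∧
    -- (3) 1-limited automata and expressions over them
    (∀ (A : Type) [Finite A] (e : Expr A),
      ∃ (M' : LimAut A) (R : Set M'.Q), M'.language strict = e.lang strict ∧
        SelfVer strict M' R ∧ Nat.card M'.Q ≤ 2 ^ (9 * e.weight + 33) ∧
        M'.size + R.ncard ≤ 2 ^ (100 * e.size ^ 2)) ∧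
    -- (4) the cost functions
    (∀ n : ℕ, 4 ≤ n → IsGreatest (costsS strict n) (SV strict n) ∧
      IsGreatest (costsSE strict n) (SVE strict n) ∧ SV strict n ≤ SVE strict n ∧
      SVE strict n ≤ 2 ^ (100 * n ^ 2)) ∧
    (∀ n : ℕ, 680000 ≤ n → 2 ^ (n ^ 2) ≤ SV strict n ^ 200000000000) :=
  ⟨⟨N602.FT.BL TH705.LB.Ltr, inferInstance, fun m => ⟨N602.FT.bwit m, N602.FT.size_bwit m,
      fun M' R h h' => hard strict m M' R h h'⟩⟩,
    fun A _ L r h => D0H57.LC.SV.sv_acc h,
    fun A _ e => D0H57.LC.SV.sv_expr strict e,
    fun n hn => ⟨D0H57.LC.SV.S_greatest n hn, D0H57.LC.SV.SE_greatest n hn,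
      D0H57.LC.SV.S_le_SE n hn, D0H57.LC.SV.SE_le n hn⟩,
    fun n hn => D0H57.LC.SV.S_lower n hn⟩

end Pool.Agent.Results.MP_0036f5_lc.SelfVerifyingMachines
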